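import Pool.Agent.W528.HA.Stm

/-!
Part JU of project HA: a Jacobi sum is not zero in characteristic `c`.
-/

set_option autoImplicit false

open Finset

namespace Pool.Agent.W839.HA.JU

/-- The sequence of the `(c ^ f - 1) / N`. -/
def U (c v : ℕ) : ℕ → ℕ
  | 0 => 0
  | f + 1 => c * U c v f + v

lemma mul_U {c v N : ℕ} (hc : 1 ≤ c) (h : N * v = c - 1) (f : ℕ) : N * U c v f = c ^ f - 1 := by
  induction f with
  | zero => simp [U]
  | succ f ih =>
    have h1 : 1 ≤ c ^ f := Nat.one_le_pow _ _ hc
    have h2 : N * U c v f + 1 = c ^ f := by omega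
    have h3 : N * (c * U c v f + v) + 1 = c ^ (f + 1) := by
      calc N * (c * U c v f + v) + 1 = c * (N * U c v f) + (N * v + 1) := by ring
        _ = c * (N * U c v f) + c := by rw [h]; omega
        _ = c * (N * U c v f + 1) := by ring
        _ = c ^ (f + 1) := by rw [h2]; ring
    change N * (c * U c v f + v) = _
    omega

lemma add_U {c v b : ℕ} (hc : 1 ≤ c) (h : b * v ≤ c - 1) (f : ℕ) :
    U c (c - 1 - b * v) f + b * U c v f = c ^ f - 1 := by
  induction f with
  | zero => simp [U]
  | succ f ih =>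
    have h1 : 1 ≤ c ^ f := Nat.one_le_pow _ _ hc
    have h2 : U c (c - 1 - b * v) f + b * U c v f + 1 = c ^ f := by omega
    have h3 : (c * U c (c - 1 - b * v) f + (c - 1 - b * v)) + b * (c * U c v f + v) + 1 =
        c ^ (f + 1) := by
      calc (c * U c (c - 1 - b * v) f + (c - 1 - b * v)) + b * (c * U c v f + v) + 1
          = c * (U c (c - 1 - b * v) f + b * U c v f) + ((c - 1 - b * v) + b * v + 1) := by ring
        _ = c * (U c (c - 1 - b * v) f + b * U c v f) + c := by
            congr 1
            omega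
        _ = c * (U c (c - 1 - b * v) f + b * U c v f + 1) := by ring
        _ = c ^ (f + 1) := by rw [h2]; ring
    change (c * U c (c - 1 - b * v) f + (c - 1 - b * v)) + b * (c * U c v f + v) = _
    omega

/-- The binomial coefficient is prime to `c`. -/
lemma choose_ndvd {c v b : ℕ} (hc : c.Prime) (h : (b + 1) * v ≤ c - 1) (f : ℕ) :
    ¬ c ∣ (U c (c - 1 - b * v) f).choose (U c v f) := by
  have : Fact c.Prime := ⟨hc⟩
  have hc2 := hc.two_le
  have hbv : b * v + v ≤ c - 1 := by
    have e : (b + 1) * v = b * v + v := by ring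
    rwa [e] at h
  induction f with
  | zero =>
    simp only [U, Nat.choose_self]
    exact hc.one_lt.ne' ∘ Nat.dvd_one.1
  | succ f ih =>
    have h1 := Choose.choose_modEq_choose_mod_mul_choose_div_nat (p := c)
      (n := U c (c - 1 - b * v) (f + 1)) (k := U c v (f + 1))
    have e1 : U c (c - 1 - b * v) (f + 1) % c = c - 1 - b * v := by
      change (c * U c (c - 1 - b * v) f + (c - 1 - b * v)) % c = _
      rw [Nat.mul_add_mod]
      exact Nat.mod_eq_of_lt (by omega)
    have e2 : U c (c - 1 - b * v) (f + 1) / c = U c (c - 1 - b * v) f := by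
      change (c * U c (c - 1 - b * v) f + (c - 1 - b * v)) / c = _
      rw [Nat.mul_add_div (by omega), Nat.div_eq_of_lt (by omega), add_zero]
    have e3 : U c v (f + 1) % c = v := by
      change (c * U c v f + v) % c = _
      rw [Nat.mul_add_mod]
      exact Nat.mod_eq_of_lt (by omega)
    have e4 : U c v (f + 1) / c = U c v f := by
      change (c * U c v f + v) / c = _
      rw [Nat.mul_add_div (by omega), Nat.div_eq_of_lt (by omega), add_zero]
    rw [e1, e2, e3, e4] at h1
    intro h2
    have h3 : c ∣ (c - 1 - b * v).choose v * (U c (c - 1 - b * v) f).choose (U c v f) :=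
      (h1.dvd_iff (dvd_refl c)).1 h2
    rcases (hc.dvd_mul).1 h3 with h4 | h4
    · have h5 : (c - 1 - b * v).choose v ∣ (c - 1 - b * v).factorial := by
        have h6 := Nat.choose_mul_factorial_mul_factorial (n := c - 1 - b * v) (k := v)
          (by omega)
        exact ⟨_, by rw [← mul_assoc]; exact h6.symm⟩
      have h6 := (hc.dvd_factorial).1 (h4.trans h5)
      omega
    · exact ih h4

/-- Sums of powers. -/
lemma sum_pow {K : Type} [Field K] [Fintype K] (i : ℕ) (hi : i ≠ 0) :
    ∑ x : K, x ^ i = if Fintype.card K - 1 ∣ i then -1 else 0 := by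
  classical
  let φ : Kˣ ↪ K := ⟨fun x ↦ x, Units.val_injective⟩
  have : univ.map φ = univ \ {0} := by
    ext x
    simp only [mem_map, mem_univ, true_and, mem_sdiff, mem_singleton]
    constructor
    · rintro ⟨a, rfl⟩
      exact a.ne_zero
    · intro h
      exact ⟨Units.mk0 x h, rfl⟩
  calc
    ∑ x : K, x ^ i = ∑ x ∈ univ \ {(0 : K)}, x ^ i := by
      rw [← sum_sdiff ({0} : Finset K).subset_univ, sum_singleton, zero_pow hi, add_zero]
    _ = ∑ x : Kˣ, (x ^ i : K) := by simp [φ, ← this, univ.sum_map φ]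
    _ = _ := FiniteField.sum_pow_units K i

theorem main : Pool.Agent.W528.HA.JU := by
  intro c N _ L _ _ _ hN b hb hbN
  classical
  have hc : c.Prime := Fact.out
  have hc2 := hc.two_le
  obtain ⟨f, -, hf⟩ := FiniteField.card L c
  obtain ⟨v, hv⟩ := hN
  have hv' : N * v = c - 1 := hv.symm
  have hv0 : 0 < v := by
    rcases Nat.eq_zero_or_pos v with h | h
    · rw [h, mul_zero] at hv'
      omega
    · exact h
  have hbv : (b + 1) * v ≤ c - 1 := by
    rw [← hv']
    exact Nat.mul_le_mul_right v hbN.le
  have hbv' : b * v ≤ c - 1 := (Nat.mul_le_mul_right v (Nat.le_succ b)).trans hbv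
  set u := U c v f with hu
  set B := U c (c - 1 - b * v) f with hB
  have h1 : N * u = c ^ (f : ℕ) - 1 := mul_U (by omega) hv' f
  have h2 : B + b * u = c ^ (f : ℕ) - 1 := add_U (by omega) hbv' f
  have hQ : Fintype.card L - 1 = N * u := by rw [hf, h1]
  have hQ1 : 0 < Fintype.card L - 1 := by
    have := Fintype.one_lt_card (α := L)
    omega
  have hu0 : 0 < u := by
    rcases Nat.eq_zero_or_pos u with h | h
    · rw [h, mul_zero] at hQ
      omega
    · exact h
  have hN0 : 0 < N := by omega
  have h3 : (Fintype.card L - 1) / N = u := by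
    rw [hQ]
    exact Nat.mul_div_cancel_left u hN0
  have h4 : Fintype.card L - 1 - b * ((Fintype.card L - 1) / N) = B := by
    rw [h3, hf, ← h2]
    omega
  have h5 : Fintype.card L - 1 - (Fintype.card L - 1) / N = (N - 1) * u := by
    rw [h3, hQ, Nat.sub_mul, one_mul]
  rw [h4, h5]
  have huB : u ≤ B := by
    have h6 : (b + 1) * u ≤ N * u := Nat.mul_le_mul_right u hbN.le
    have h7 : (b + 1) * u = b * u + u := by ring
    omega
  -- expansion
  have h6 : ∑ x : L, x ^ ((N - 1) * u) * (1 - x) ^ B =
      ∑ k ∈ range (B + 1), ((-1) ^ k * (B.choose k : L)) * ∑ x : L, x ^ ((N - 1) * u + k) := by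
    simp_rw [Finset.mul_sum]
    rw [Finset.sum_comm]
    refine Finset.sum_congr rfl fun x _ => ?_
    rw [sub_eq_add_neg, add_comm, add_pow, Finset.mul_sum]
    refine Finset.sum_congr rfl fun k _ => ?_
    rw [one_pow, mul_one, neg_pow, pow_add]
    ring
  have hNu : N * u = (N - 1) * u + u := by
    have h7 : N = N - 1 + 1 := by omega
    conv_lhs => rw [h7]
    ring
  have h7 : ∀ k ∈ range (B + 1), k ≠ u →
      ((-1) ^ k * (B.choose k : L)) * ∑ x : L, x ^ ((N - 1) * u + k) = 0 := by
    intro k hk hku
    rw [mem_range] at hk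
    have h8 : 0 < (N - 1) * u := Nat.mul_pos (by omega) hu0
    rw [sum_pow _ (by omega), if_neg, mul_zero]
    rw [hQ]
    rintro ⟨t, ht⟩
    have h9 : (N - 1) * u + k < 2 * (N * u) := by
      have h10 : B < N * u := by
        have h11 : 0 < b * u := Nat.mul_pos (by omega) hu0
        omega
      omega
    have h10 : t < 2 := by
      by_contra h11
      push Not at h11
      have h12 : N * u * 2 ≤ N * u * t := Nat.mul_le_mul_left _ h11
      omega
    interval_cases t
    · omega
    · omega
  rw [h6, Finset.sum_eq_single u h7 (fun h => absurd (mem_range.2 (by omega)) h)]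
  have h8 : ∑ x : L, x ^ ((N - 1) * u + u) = -1 := by
    rw [← hNu, sum_pow _ (by omega), if_pos (by rw [hQ])]
  rw [h8]
  have h9 : (B.choose u : L) ≠ 0 := by
    rw [Ne, CharP.cast_eq_zero_iff L c]
    exact choose_ndvd hc hbv f
  have h10 : ((-1 : L)) ^ u ≠ 0 := pow_ne_zero _ (by simp)
  exact mul_ne_zero (mul_ne_zero h10 h9) (by simp)

end Pool.Agent.W839.HA.JU
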